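import Pool.Agent.R844.NC.Peel

/-!
Polynomials in noncommuting variables which vanish on matrices: reindexing, reversal, homogeneous
components, the least degree.
-/

set_option autoImplicit false

namespace Pool.Agent.R844.NC

open Matrix Polynomial

variable {K : Type*} [Field K] {σ : Type*}

lemma map_submatrix {ι κ : Type*} [Fintype ι] [DecidableEq ι] [Fintype κ] [DecidableEq κ]
    (e : ι ≃ κ) (X : σ → Matrix κ κ K) (l : List σ) :
    (l.map fun s => (X s).submatrix e e).prod = ((l.map X).prod).submatrix e e := by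
  induction l with
  | nil => simp
  | cons a l ih =>
    rw [List.map_cons, List.prod_cons, ih, List.map_cons, List.prod_cons,
      Matrix.submatrix_mul_equiv]

lemma Zero.equiv {ι κ : Type*} [Fintype ι] [DecidableEq ι] [Fintype κ] [DecidableEq κ]
    (e : ι ≃ κ) {c : List σ →₀ K} {X : σ → Matrix κ κ K}
    (h : Zero c fun s => (X s).submatrix e e) : Zero c X := by
  intro i j
  have h1 := h (e.symm i) (e.symm j)
  refine Eq.trans (Finsupp.sum_congr fun l _ => ?_) h1
  rw [map_submatrix, Matrix.submatrix_apply, Equiv.apply_symm_apply, Equiv.apply_symm_apply]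

lemma VanAll.equiv {ι κ : Type*} [Fintype ι] [DecidableEq ι] [Fintype κ] [DecidableEq κ]
    (e : ι ≃ κ) {c : List σ →₀ K} (h : VanAll ι c) : VanAll κ c :=
  fun _ => Zero.equiv e (h _)

lemma VanAll.vanU {ι κ : Type*} [Fintype ι] [DecidableEq ι] [Fintype κ] [DecidableEq κ]
    {c : List σ →₀ K} (h : VanAll (κ ⊕ ι) c) : VanU κ ι c :=
  fun _ _ _ => h _

lemma VanAll.fin {k e : ℕ} {c : List σ →₀ K} (h : VanAll (Fin (k + e)) c) :
    VanU (Fin k) (Fin e) c :=
  (h.equiv finSumFinEquiv.symm).vanU

/-- reversal -/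
noncomputable def rv (c : List σ →₀ K) : List σ →₀ K := c.mapDomain List.reverse

@[simp] lemma rv_apply (c : List σ →₀ K) (l : List σ) : rv c l = c l.reverse := by
  have := Finsupp.mapDomain_apply (List.reverse_injective (α := σ)) c l.reverse
  rw [List.reverse_reverse] at this
  exact this

lemma sum_rv (c : List σ →₀ K) (g : List σ → K) :
    ((rv c).sum fun l a => a * g l) = c.sum fun l a => a * g l.reverse := by
  rw [rv, Finsupp.sum_mapDomain_index (by simp) (by intro _ _ _; ring)]

lemma zero_rv {ι : Type*} [Fintype ι] [DecidableEq ι] {c : List σ →₀ K} {X : σ → Matrix ι ι K}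
    (h : Zero c fun s => (X s)ᵀ) : Zero (rv c) X := by
  intro i j
  rw [sum_rv]
  refine Eq.trans (Finsupp.sum_congr fun l _ => ?_) (h j i)
  have h1 : (l.map fun s => (X s)ᵀ).prod = ((l.reverse.map X).prod)ᵀ := by
    rw [Matrix.transpose_list_prod, List.map_reverse, List.map_reverse, List.reverse_reverse,
      List.map_map]
    rfl
  rw [h1, Matrix.transpose_apply]

lemma VanAll.rv {ι : Type*} [Fintype ι] [DecidableEq ι] {c : List σ →₀ K} (h : VanAll ι c) :
    VanAll ι (NC.rv c) :=
  fun _ => zero_rv (h _)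

/-- the polynomial `c` vanishes at all block lower triangular matrices -/
def VanL (κ ι : Type*) [Fintype κ] [DecidableEq κ] [Fintype ι] [DecidableEq ι]
    (c : List σ →₀ K) : Prop :=
  ∀ (A : σ → Matrix κ κ K) (B : σ → Matrix ι κ K) (D : σ → Matrix ι ι K),
    Zero c fun s => fromBlocks (A s) 0 (B s) (D s)

lemma VanL.rv {ι κ : Type*} [Fintype ι] [DecidableEq ι] [Fintype κ] [DecidableEq κ]
    {c : List σ →₀ K} (h : VanL κ ι c) : VanU κ ι (NC.rv c) := by
  intro A B D
  apply zero_rv
  have h1 := h (fun s => (A s)ᵀ) (fun s => (B s)ᵀ) (fun s => (D s)ᵀ)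
  simpa only [fromBlocks_transpose, transpose_zero] using h1

lemma VanU.swap {ι κ : Type*} [Fintype ι] [DecidableEq ι] [Fintype κ] [DecidableEq κ]
    {c : List σ →₀ K} (h : VanU κ ι c) : VanU ι κ (NC.rv c) := by
  intro A B D
  apply zero_rv
  apply Zero.equiv (Equiv.sumComm κ ι)
  have h1 := h (fun s => (D s)ᵀ) (fun s => (B s)ᵀ) (fun s => (A s)ᵀ)
  convert h1 using 2 with s
  ext i j
  rcases i with i | i <;> rcases j with j | j <;> simp [fromBlocks]

/-- homogeneous components -/
lemma VanAll.hom [Infinite K] {ι : Type*} [Fintype ι] [DecidableEq ι] {c : List σ →₀ K}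
    (h : VanAll ι c) (d : ℕ) : VanAll ι (c.filter fun l => l.length = d) := by
  classical
  intro X i j
  have hpr : ∀ (t : K) (l : List σ),
      (l.map fun i => t • X i).prod = t ^ l.length • (l.map X).prod := by
    intro t l
    induction l with
    | nil => simp
    | cons a l ih =>
      rw [List.map_cons, List.prod_cons, ih, List.map_cons, List.prod_cons, List.length_cons,
        smul_mul_smul_comm, pow_succ']
  have hp : (c.sum fun l a => Polynomial.monomial l.length (a * (l.map X).prod i j)) = 0 := by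
    apply Polynomial.funext
    intro t
    rw [eval_zero, Finsupp.sum, eval_finsetSum]
    refine Eq.trans (Finset.sum_congr rfl fun l _ => ?_) (h (fun s => t • X s) i j)
    show _ = c l * (l.map fun s => t • X s).prod i j
    rw [eval_monomial, hpr, Matrix.smul_apply, smul_eq_mul]
    ring
  have h1 := congrArg (fun p : K[X] => p.coeff d) hp
  rw [Finsupp.sum] at h1
  simp only [finsetSum_coeff, coeff_monomial, coeff_zero] at h1
  rw [Finsupp.sum, Finsupp.support_filter, Finset.sum_filter]
  refine Eq.trans (Finset.sum_congr rfl fun l _ => ?_) h1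
  by_cases hl : l.length = d
  · rw [if_pos hl, if_pos hl, Finsupp.filter_apply, if_pos hl]
  · rw [if_neg hl, if_neg hl]

lemma sum_eq_of [DecidableEq σ] {h : List σ →₀ K} {φ : List σ → K} (S : Finset (List σ))
    (hS : ∀ l, h l ≠ 0 → l ∉ S → φ l = 0) :
    (h.sum fun l a => a * φ l) = ∑ l ∈ S, h l * φ l := by
  rw [Finsupp.sum]
  have h1 : ∑ l ∈ h.support, h l * φ l = ∑ l ∈ h.support ∪ S, h l * φ l := by
    refine Finset.sum_subset Finset.subset_union_left fun l _ hl => ?_
    rw [Finsupp.notMem_support_iff.1 hl, zero_mul]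
  have h2 : ∑ l ∈ S, h l * φ l = ∑ l ∈ h.support ∪ S, h l * φ l := by
    refine Finset.sum_subset Finset.subset_union_right fun l _ hl => ?_
    by_cases h3 : h l = 0
    · rw [h3, zero_mul]
    · rw [hS l h3 hl, mul_zero]
  rw [h1, h2]

lemma NoId.coeff [Infinite K] {ι : Type*} [Fintype ι] [DecidableEq ι] {s : ℕ}
    (hno : NoId K σ ι s) {c : List σ →₀ K} (h : VanAll ι c) {l : List σ} (hl : l.length = s) :
    c l = 0 := by
  classical
  have h1 := hno (c.filter fun l => l.length = s) (fun m hm => by
    by_contra hne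
    exact hm (Finsupp.filter_apply_neg _ _ hne)) (h.hom s)
  have h2 := congrArg (fun f : List σ →₀ K => f l) h1
  simp only [Finsupp.zero_apply] at h2
  rwa [Finsupp.filter_apply, if_pos hl] at h2

lemma noId_zero {ι : Type*} [Fintype ι] [DecidableEq ι] [Nonempty ι] : NoId K σ ι 0 := by
  classical
  intro h hh hv
  ext l
  rw [Finsupp.zero_apply]
  by_contra hne
  have hl := List.length_eq_zero_iff.1 (hh l hne)
  subst hl
  obtain ⟨i⟩ := ‹Nonempty ι›
  have h1 := hv (fun _ => 0) i i
  rw [sum_eq_of {[]}] at h1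
  · simp at h1
    exact hne h1
  · intro l hl hl2
    exact absurd (List.length_eq_zero_iff.1 (hh l hl)) (by simpa using hl2)

lemma noId_one {ι : Type*} [Fintype ι] [DecidableEq ι] [Nonempty ι] : NoId K σ ι 1 := by
  classical
  intro h hh hv
  ext l
  rw [Finsupp.zero_apply]
  by_contra hne
  obtain ⟨a, rfl⟩ := List.length_eq_one_iff.1 (hh l hne)
  obtain ⟨i⟩ := ‹Nonempty ι›
  have h1 := hv (fun z => if z = a then 1 else 0) i i
  rw [sum_eq_of {[a]}] at h1
  · simp at h1
    exact hne h1
  · intro l hl hl2
    obtain ⟨b, rfl⟩ := List.length_eq_one_iff.1 (hh l hl)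
    have : b ≠ a := by
      intro h
      apply hl2
      simp [h]
    simp [this]

/-- least degree of the identities of matrices -/
lemma degree [Infinite K] {m : ℕ} {c : List σ →₀ K} (h : VanAll (Fin m) c) {l : List σ}
    (hl : c l ≠ 0) : 2 * m ≤ l.length := by
  induction m generalizing c l with
  | zero => simp
  | succ m ih =>
    have h2 : 2 ≤ l.length := by
      by_contra hcon
      have h3 : l.length = 0 ∨ l.length = 1 := by omega
      rcases h3 with h3 | h3
      · exact hl (noId_zero.coeff h h3)
      · exact hl (noId_one.coeff h h3)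
    have h4 : VanU (Fin 1) (Fin m) c := by
      have h5 : VanAll (Fin (1 + m)) c := by rw [add_comm]; exact h
      exact h5.fin
    have h6 := peel c 1 noId_one h4 (l.take 2) (by rw [List.length_take]; omega)
    have h7 : pl (l.take 2) c (l.drop 2) ≠ 0 := by
      rw [pl_apply, List.take_append_drop]
      exact hl
    have h8 := ih h6 h7
    rw [List.length_drop] at h8
    omega

lemma noId_lt [Infinite K] {m s : ℕ} (hs : s < 2 * m) : NoId K σ (Fin m) s := by
  intro h hh hv
  ext l
  rw [Finsupp.zero_apply]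
  by_contra hne
  have h1 := degree hv hne
  have h2 := hh l hne
  omega

end Pool.Agent.R844.NC
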