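import Pool.Agent.R844.NC.Swap
import Pool.Agent.R676.NC.Comp

/-!
Restriction to a set of variables; the words of least degree; polynomials in the free algebra.
-/

set_option autoImplicit false

namespace Pool.Agent.R844.NC

open Matrix Polynomial

variable {K : Type*} [Field K] {σ : Type*}

/-- restriction to the variables in `T` -/
noncomputable def rs (T : Finset σ) (c : List σ →₀ K) : List T →₀ K :=
  c.comapDomain (List.map Subtype.val) (List.map_injective_iff.2 Subtype.val_injective).injOn

@[simp] lemma rs_apply (T : Finset σ) (c : List σ →₀ K) (m : List T) :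
    rs T c m = c (m.map Subtype.val) := rfl

lemma sum_rs (T : Finset σ) (c : List σ →₀ K) (φ : List T → K) (ψ : List σ → K)
    (h1 : ∀ m : List T, ψ (m.map Subtype.val) = φ m) (h2 : ∀ l, (∃ z ∈ l, z ∉ T) → ψ l = 0) :
    ((rs T c).sum fun l a => a * φ l) = c.sum fun l a => a * ψ l := by
  classical
  induction c using Finsupp.induction_linear with
  | zero => simp [rs]
  | add c d hc hd =>
    have h : rs T (c + d) = rs T c + rs T d := by
      ext v; simp
    rw [h, Finsupp.sum_add_index' (by simp) (by intro _ _ _; ring), hc, hd,
      Finsupp.sum_add_index' (by simp) (by intro _ _ _; ring)]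
  | single l a =>
    rw [Finsupp.sum_single_index (by simp)]
    by_cases h : ∀ z ∈ l, z ∈ T
    · lift l to List T using h
      have h3 : rs T (Finsupp.single (l.map Subtype.val) a) = Finsupp.single l a := by
        ext v
        rw [rs_apply, Finsupp.single_apply, Finsupp.single_apply]
        congr 1
        rw [eq_iff_iff]
        exact (List.map_injective_iff.2 Subtype.val_injective).eq_iff
      rw [h3, Finsupp.sum_single_index (by simp), h1]
    · push Not at h
      rw [h2 l h, mul_zero]
      have h3 : rs T (Finsupp.single l a) = 0 := by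
        ext v
        rw [rs_apply, Finsupp.single_apply, if_neg, Finsupp.zero_apply]
        intro h4
        obtain ⟨z, hz, hzT⟩ := h
        rw [h4, List.mem_map] at hz
        obtain ⟨y, _, rfl⟩ := hz
        exact hzT y.2
      rw [h3]
      simp

lemma zero_rs {ι : Type*} [Fintype ι] [DecidableEq ι] [DecidableEq σ] (T : Finset σ)
    {c : List σ →₀ K} {X : T → Matrix ι ι K}
    (h : Zero c fun s => if hs : s ∈ T then X ⟨s, hs⟩ else 0) : Zero (rs T c) X := by
  intro i j
  rw [sum_rs T c _ _ ?_ ?_, h i j]
  · intro m
    rw [List.map_map]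
    have h1 : ((fun s => if hs : s ∈ T then X ⟨s, hs⟩ else 0) ∘ Subtype.val) = X := by
      funext y
      simp
    rw [h1]
  · rintro l ⟨z, hz, hzT⟩
    have h1 : (l.map fun s => if hs : s ∈ T then X ⟨s, hs⟩ else 0).prod = 0 := by
      apply List.prod_eq_zero
      rw [List.mem_map]
      exact ⟨z, hz, by rw [dif_neg hzT]⟩
    rw [h1]
    rfl

lemma VanU.rs {ι κ : Type*} [Fintype ι] [DecidableEq ι] [Fintype κ] [DecidableEq κ]
    [DecidableEq σ] (T : Finset σ) {c : List σ →₀ K} (h : VanU κ ι c) :
    VanU κ ι (NC.rs T c) := by
  intro A B D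
  apply zero_rs
  have h1 := h (fun s => if hs : s ∈ T then A ⟨s, hs⟩ else 0)
    (fun s => if hs : s ∈ T then B ⟨s, hs⟩ else 0) (fun s => if hs : s ∈ T then D ⟨s, hs⟩ else 0)
  convert h1 using 2 with s
  by_cases hs : s ∈ T
  · simp only [dif_pos hs]
  · simp only [dif_neg hs, fromBlocks_zero]

/-- words with few distinct letters -/
lemma few [Infinite K] [DecidableEq σ] {k e : ℕ} {c : List σ →₀ K} (h : VanU (Fin k) (Fin e) c)
    {l : List σ} (hl : c l ≠ 0) (hT : l.toFinset.card < 2 * k) (h2 : 2 * k + 1 ≤ l.length) :
    2 * k + 1 + (2 * e + e / k) ≤ l.length := by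
  set T := l.toFinset with hTdef
  have h1 := h.rs T
  have hmem : ∀ z ∈ l, z ∈ T := fun z hz => List.mem_toFinset.2 hz
  obtain ⟨m, hm⟩ : ∃ m : List T, m.map Subtype.val = l := by
    clear_value T
    lift l to List T using hmem
    exact ⟨l, rfl⟩
  have hmc : NC.rs T c m ≠ 0 := by rw [rs_apply, hm]; exact hl
  have hlen : m.length = l.length := by rw [← hm, List.length_map]
  have hcard : Fintype.card T < 2 * k := by rw [Fintype.card_coe]; exact hT
  have h3 := peel (NC.rs T c) (2 * k) (noId_few hcard) h1 (m.take (2 * k + 1))
    (by rw [List.length_take]; omega)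
  have h4 : pl (m.take (2 * k + 1)) (NC.rs T c) (m.drop (2 * k + 1)) ≠ 0 := by
    rw [pl_apply, List.take_append_drop]
    exact hmc
  have h5 := degree_few hcard h3 h4
  rw [List.length_drop] at h5
  omega

lemma zero_hom [Infinite K] {ι : Type*} [Fintype ι] [DecidableEq ι] {c : List σ →₀ K}
    {X : σ → Matrix ι ι K} (h : ∀ t : K, Zero c fun s => t • X s) (d : ℕ) :
    Zero (c.filter fun l => l.length = d) X := by
  classical
  intro i j
  have hpr : ∀ (t : K) (l : List σ),
      (l.map fun i => t • X i).prod = t ^ l.length • (l.map X).prod := by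
    intro t l
    induction l with
    | nil => simp
    | cons a l ih =>
      rw [List.map_cons, List.prod_cons, ih, List.map_cons, List.prod_cons, List.length_cons,
        smul_mul_smul_comm, pow_succ']
  have hp : (c.sum fun l a => Polynomial.monomial l.length (a * (l.map X).prod i j)) = 0 := by
    apply Polynomial.funext
    intro t
    rw [eval_zero, Finsupp.sum, eval_finsetSum]
    refine Eq.trans (Finset.sum_congr rfl fun l _ => ?_) (h t i j)
    show _ = c l * (l.map fun s => t • X s).prod i j
    rw [eval_monomial, hpr, Matrix.smul_apply, smul_eq_mul]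
    ring
  have h1 := congrArg (fun p : K[X] => p.coeff d) hp
  rw [Finsupp.sum] at h1
  simp only [finsetSum_coeff, coeff_monomial, coeff_zero] at h1
  rw [Finsupp.sum, Finsupp.support_filter, Finset.sum_filter]
  refine Eq.trans (Finset.sum_congr rfl fun l _ => ?_) h1
  by_cases hl : l.length = d
  · rw [if_pos hl, if_pos hl, Finsupp.filter_apply, if_pos hl]
  · rw [if_neg hl, if_neg hl]

lemma VanU.hom [Infinite K] {ι κ : Type*} [Fintype ι] [DecidableEq ι] [Fintype κ] [DecidableEq κ]
    {c : List σ →₀ K} (h : VanU κ ι c) (d : ℕ) :
    VanU κ ι (c.filter fun l => l.length = d) := by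
  intro A B D
  apply zero_hom
  intro t
  have h1 := h (fun s => t • A s) (fun s => t • B s) (fun s => t • D s)
  convert h1 using 2 with s
  rw [fromBlocks_smul, smul_zero]

lemma swA [Infinite K] {k e : ℕ} (hk : 0 < k) {h : List σ →₀ K}
    (hh : ∀ l, h l ≠ 0 → l.length = 2 * (k + e)) (hv : VanU (Fin k) (Fin e) h) {p s : List σ}
    (hps : p.length + 2 + s.length = 2 * (k + e)) (hp : 2 * k ≤ p.length) : Sw h p s := by
  have h1 := peel h (2 * k - 1) (noId_lt (by omega)) hv (p.take (2 * k))
    (by rw [List.length_take]; omega)
  have h2 := sw (pl (p.take (2 * k)) h) (fun l hl => by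
    rw [pl_apply] at hl
    have h3 := hh _ hl
    rw [List.length_append, List.length_take] at h3
    omega) h1 (p.drop (2 * k)) s (by rw [List.length_drop]; omega)
  have h3 := h2.pl
  rwa [List.take_append_drop] at h3

lemma Sw.of_rv {h : List σ →₀ K} {p s : List σ} (H : Sw (NC.rv h) s.reverse p.reverse) :
    Sw h p s := by
  have h2 := H.rv
  rw [List.reverse_reverse, List.reverse_reverse] at h2
  intro a b
  have h3 := h2 a b
  simpa only [rv_apply, List.reverse_reverse] using h3

lemma swB [Infinite K] {k e : ℕ} (he : 0 < e) {h : List σ →₀ K}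
    (hh : ∀ l, h l ≠ 0 → l.length = 2 * (k + e)) (hv : VanU (Fin k) (Fin e) h) {p s : List σ}
    (hps : p.length + 2 + s.length = 2 * (k + e)) (hs : 2 * e ≤ s.length) : Sw h p s := by
  apply Sw.of_rv
  refine swA he (fun l hl => ?_) hv.swap ?_ ?_
  · rw [rv_apply] at hl
    have := hh _ hl
    rw [List.length_reverse] at this
    omega
  · rw [List.length_reverse, List.length_reverse]
    omega
  · rw [List.length_reverse]
    exact hs

/-- all changes of neighbours -/
theorem sw_all [Infinite K] {n : ℕ} (hn : 4 ≤ n) (c : List σ →₀ K)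
    (H : ∀ k e, 0 < k → 0 < e → k + e = n → VanU (Fin k) (Fin e) c ∨ VanU (Fin k) (Fin e) (rv c))
    (p s : List σ) (hps : p.length + 2 + s.length = 2 * n) : Sw c p s := by
  classical
  -- a version for one of the two directions
  have key : ∀ (c : List σ →₀ K), VanU (Fin 1) (Fin (n - 1)) c →
      (VanU (Fin 2) (Fin (n - 2)) c ∨ VanU (Fin 2) (Fin (n - 2)) (rv c)) →
      ∀ (p s : List σ), p.length + 2 + s.length = 2 * n → Sw c p s := by
    intro c h1 h2 p s hps
    have red : Sw (c.filter fun l => l.length = 2 * n) p s → Sw c p s := by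
      intro H a b
      have h3 := H a b
      rw [Finsupp.filter_apply, Finsupp.filter_apply, Finsupp.filter_apply, if_pos, if_pos,
        if_pos] at h3
      · exact h3
      all_goals simp only [List.length_append, List.length_cons]; omega
    apply red
    have hh : ∀ l, (c.filter fun l => l.length = 2 * n) l ≠ 0 → l.length = 2 * n := by
      intro l hl
      by_contra hne
      exact hl (by rw [Finsupp.filter_apply, if_neg hne])
    rcases le_or_gt 2 p.length with hp | hp
    · exact swA one_pos (fun l hl => by have := hh l hl; omega) (h1.hom _) (by omega) (by omega)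
    rcases h2 with h2 | h2
    · exact swB (k := 2) (e := n - 2) (by omega) (fun l hl => by have := hh l hl; omega)
        (h2.hom _) (by omega) (by omega)
    · -- lower triangular type
      apply Sw.of_rv
      have h3 : rv (c.filter fun l => l.length = 2 * n) =
          (rv c).filter fun l => l.length = 2 * n := by
        ext l
        rw [rv_apply, Finsupp.filter_apply, Finsupp.filter_apply, List.length_reverse, rv_apply]
      rw [h3]
      refine swA (k := 2) (e := n - 2) (by omega) (fun l hl => ?_) (h2.hom _) ?_ ?_
      · by_contra hne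
        exact hl (by rw [Finsupp.filter_apply, if_neg (by omega)])
      · rw [List.length_reverse, List.length_reverse]
        omega
      · rw [List.length_reverse]
        omega
  have hrr : rv (rv c) = c := by
    ext l
    rw [rv_apply, rv_apply, List.reverse_reverse]
  rcases H 1 (n - 1) (by omega) (by omega) (by omega) with h1 | h1
  · exact key c h1 (H 2 (n - 2) (by omega) (by omega) (by omega)) p s hps
  · apply Sw.of_rv
    refine key (rv c) h1 ?_ _ _ (by rw [List.length_reverse, List.length_reverse]; omega)
    rw [hrr]
    exact (H 2 (n - 2) (by omega) (by omega) (by omega)).symm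

open Pool.Agent.R676.NC Pool.Agent.Results.MP_5d2531_al.BlockTriangular

/-- the coefficients of the nonempty words of `f` -/
noncomputable def cn (f : FreeAlgebra K σ) : List σ →₀ K :=
  open Classical in
  Finsupp.onFinset (supp f) (fun l => if l = [] then 0 else coef f l) (by
    intro l hl
    rw [mem_supp]
    intro h
    apply hl
    rw [h]
    simp)

lemma cn_apply (f : FreeAlgebra K σ) {l : List σ} (hl : l ≠ []) : cn f l = coef f l := by
  classical
  show (if l = [] then 0 else coef f l) = coef f l
  rw [if_neg hl]

lemma cn_nil (f : FreeAlgebra K σ) : cn f [] = 0 := by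
  classical
  show (if ([] : List σ) = [] then 0 else coef f []) = 0
  rw [if_pos rfl]

lemma zero_cn {ι : Type*} [Fintype ι] [DecidableEq ι] (f : FreeAlgebra K σ)
    (X : σ → Matrix ι ι K) (h : FreeAlgebra.lift K X f = Matrix.scalar ι (coef f [])) :
    Zero (cn f) X := by
  classical
  intro i j
  have h1 := congrFun (congrFun h i) j
  rw [lift_eq, Matrix.sum_apply] at h1
  rw [sum_eq_of (insert [] (supp f))]
  · have h3 : ∑ l ∈ insert [] (supp f), (coef f l • (l.map X).prod) i j =
        ∑ l ∈ supp f, (coef f l • (l.map X).prod) i j := by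
      refine (Finset.sum_subset (Finset.subset_insert _ _) fun l _ hl => ?_).symm
      rw [mem_supp, not_not] at hl
      rw [hl, zero_smul]
      rfl
    rw [← h3] at h1
    have h4 : ∀ l ∈ insert [] (supp f), cn f l * (l.map X).prod i j =
        (coef f l • (l.map X).prod) i j -
          (if l = [] then (Matrix.scalar ι (coef f [])) i j else 0) := by
      intro l _
      by_cases hl : l = []
      · subst hl
        rw [cn_nil, zero_mul, if_pos rfl, List.map_nil, List.prod_nil, Matrix.scalar_apply,
          Matrix.smul_apply, smul_eq_mul]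
        by_cases hij : i = j
        · subst hij
          rw [Matrix.one_apply_eq, Matrix.diagonal_apply_eq, mul_one, sub_self]
        · rw [Matrix.one_apply_ne hij, Matrix.diagonal_apply_ne _ hij, mul_zero, sub_self]
      · rw [cn_apply f hl, if_neg hl, sub_zero, Matrix.smul_apply, smul_eq_mul]
    rw [Finset.sum_congr rfl h4, Finset.sum_sub_distrib, h1, Finset.sum_ite_eq',
      if_pos (Finset.mem_insert_self _ _), sub_self]
  · intro l hl hl2
    exfalso
    apply hl2
    rw [Finset.mem_insert]
    by_cases h3 : l = []
    · exact Or.inl h3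
    · right
      rw [cn_apply f h3] at hl
      exact mem_supp.2 hl

end Pool.Agent.R844.NC
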