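import Mathlib

/-!
Polynomials in noncommuting variables, given by their coefficients `c : List σ →₀ K`, which vanish on
block triangular matrices: peeling off the first letters.
-/

set_option autoImplicit false

namespace Pool.Agent.R844.NC

open Matrix Polynomial

variable {K : Type*} [Field K] {σ : Type*}

/-- the polynomial `c` vanishes at the tuple `X` of matrices -/
def Zero {ι : Type*} [Fintype ι] [DecidableEq ι] (c : List σ →₀ K) (X : σ → Matrix ι ι K) : Prop :=
  ∀ i j : ι, (c.sum fun l a => a * (l.map X).prod i j) = 0

/-- the polynomial `c` vanishes at all tuples of `ι × ι` matrices -/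
def VanAll (ι : Type*) [Fintype ι] [DecidableEq ι] (c : List σ →₀ K) : Prop :=
  ∀ X : σ → Matrix ι ι K, Zero c X

/-- the polynomial `c` vanishes at all block upper triangular matrices -/
def VanU (κ ι : Type*) [Fintype κ] [DecidableEq κ] [Fintype ι] [DecidableEq ι]
    (c : List σ →₀ K) : Prop :=
  ∀ (A : σ → Matrix κ κ K) (B : σ → Matrix κ ι K) (D : σ → Matrix ι ι K),
    Zero c fun s => fromBlocks (A s) (B s) 0 (D s)

/-- the sum of the terms beginning with `p`, without this beginning -/
noncomputable def pl (p : List σ) (c : List σ →₀ K) : List σ →₀ K :=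
  c.comapDomain (fun v => p ++ v) (List.append_right_injective p).injOn

@[simp] lemma pl_apply (p : List σ) (c : List σ →₀ K) (v : List σ) : pl p c v = c (p ++ v) := rfl

lemma sum_pl (p : List σ) (c : List σ →₀ K) (g : List σ → K)
    [DecidablePred fun l : List σ => l.take p.length = p] :
    ((pl p c).sum fun v a => a * g v) =
      c.sum fun l a => a * (if l.take p.length = p then g (l.drop p.length) else 0) := by
  classical
  induction c using Finsupp.induction_linear with
  | zero => simp [pl]
  | add c d hc hd =>
    have h : pl p (c + d) = pl p c + pl p d := by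
      ext v; simp
    rw [h, Finsupp.sum_add_index' (by simp) (by intro _ _ _; ring), hc, hd,
      Finsupp.sum_add_index' (by simp) (by intro _ _ _; ring)]
  | single l a =>
    rw [Finsupp.sum_single_index (by simp)]
    by_cases h : l.take p.length = p
    · rw [if_pos h]
      have h1 : pl p (Finsupp.single l a) = Finsupp.single (l.drop p.length) a := by
        ext v
        rw [pl_apply, Finsupp.single_apply, Finsupp.single_apply]
        congr 1
        rw [eq_iff_iff]
        constructor
        · intro h2
          rw [h2, List.drop_left]
        · intro h2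
          rw [← h2]
          conv_rhs => rw [← h]
          rw [List.length_take_of_le (by rw [← h, List.length_take]; exact min_le_right _ _)]
          exact (List.take_append_drop _ _).symm
      rw [h1, Finsupp.sum_single_index (by simp)]
    · rw [if_neg h]
      have h1 : pl p (Finsupp.single l a) = 0 := by
        ext v
        rw [pl_apply, Finsupp.single_apply, if_neg, Finsupp.zero_apply]
        intro h2
        exact h (by rw [h2, List.take_left])
      rw [h1]
      simp

/-- words in block upper triangular matrices -/
noncomputable def offp {κ ι : Type*} [Fintype κ] [DecidableEq κ] [Fintype ι] [DecidableEq ι]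
    [DecidableEq σ] (y : σ) (A : σ → Matrix κ κ K) (R : Matrix κ ι K) (D : σ → Matrix ι ι K) :
    List σ → κ → ι → K[X]
  | [], _, _ => 0
  | z :: l, i, j => X * ∑ a, C (A z i a) * offp y A R D l a j +
      (if z = y then C ((R * (l.map D).prod) i j) else 0)

lemma word_blocks {κ ι : Type*} [Fintype κ] [DecidableEq κ] [Fintype ι] [DecidableEq ι]
    [DecidableEq σ] (t : K) (y : σ) (A : σ → Matrix κ κ K) (R : Matrix κ ι K)
    (D : σ → Matrix ι ι K) (l : List σ) :
    (l.map fun s => fromBlocks (t • A s) (if s = y then R else 0) 0 (D s)).prod =
      fromBlocks (t ^ l.length • (l.map A).prod)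
        (Matrix.of fun i j => (offp y A R D l i j).eval t) 0 (l.map D).prod := by
  induction l with
  | nil =>
    simp only [List.map_nil, List.prod_nil, List.length_nil, pow_zero, one_smul, offp, eval_zero]
    rw [← fromBlocks_one]
    rfl
  | cons z l ih =>
    rw [List.map_cons, List.prod_cons, ih, fromBlocks_multiply]
    congr 1
    · rw [List.length_cons, List.map_cons, List.prod_cons, Matrix.smul_mul, Matrix.mul_smul,
        smul_smul, Matrix.mul_zero, add_zero, pow_succ']
    · ext i j
      rw [Matrix.add_apply, Matrix.of_apply, offp, eval_add, eval_mul, eval_X, eval_finsetSum]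
      congr 1
      · rw [Matrix.smul_mul, Matrix.smul_apply, smul_eq_mul, Matrix.mul_apply]
        congr 1
        refine Finset.sum_congr rfl fun a _ => ?_
        rw [Matrix.of_apply, eval_mul, eval_C]
      · by_cases h : z = y
        · rw [if_pos h, if_pos h, eval_C]
        · rw [if_neg h, if_neg h, eval_zero, Matrix.zero_mul, Matrix.zero_apply]
    · rw [Matrix.zero_mul, Matrix.mul_zero, add_zero]
    · rw [Matrix.zero_mul, zero_add, List.map_cons, List.prod_cons]

lemma coeff_offp {κ ι : Type*} [Fintype κ] [DecidableEq κ] [Fintype ι] [DecidableEq ι]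
    [DecidableEq σ] (y : σ) (A : σ → Matrix κ κ K) (R : Matrix κ ι K)
    (D : σ → Matrix ι ι K) (l : List σ) (s : ℕ) (i : κ) (j : ι) :
    (offp y A R D l i j).coeff s =
      if l[s]? = some y then
        (((l.take s).map A).prod * R * ((l.drop (s + 1)).map D).prod) i j else 0 := by
  induction l generalizing s i with
  | nil => simp [offp]
  | cons z l ih =>
    cases s with
    | zero =>
      simp only [offp, coeff_add, coeff_X_mul_zero, zero_add]
      by_cases h : z = y
      · simp [h]
      · simp [h]
    | succ s =>
      simp only [offp, coeff_add, coeff_X_mul, finsetSum_coeff, coeff_C_mul]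
      have h1 : (if z = y then C ((R * (l.map D).prod) i j) else (0 : K[X])).coeff (s + 1) = 0 := by
        split_ifs
        · exact coeff_C_succ
        · simp
      rw [h1, add_zero]
      simp only [ih s]
      rw [List.getElem?_cons_succ, List.take_succ_cons, List.drop_succ_cons, List.map_cons,
        List.prod_cons]
      by_cases h : l[s]? = some y
      · simp only [if_pos h]
        simp only [Matrix.mul_assoc]
        rw [Matrix.mul_apply]
      · simp only [if_neg h, mul_zero, Finset.sum_const_zero]

/-- extraction of the terms with the letter `y` at the place `s` -/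
lemma extract [Infinite K] {κ ι : Type*} [Fintype κ] [DecidableEq κ] [Fintype ι] [DecidableEq ι]
    [DecidableEq σ] (c : List σ →₀ K) (A : σ → Matrix κ κ K) (D : σ → Matrix ι ι K)
    (y : σ) (s : ℕ)
    (h : ∀ (t : K) (R : Matrix κ ι K), Zero c fun s => fromBlocks (t • A s) (if s = y then R else 0) 0 (D s))
    (i i' : κ) (j' j : ι) :
    (c.sum fun l a => a * (if l[s]? = some y then
      ((l.take s).map A).prod i i' * ((l.drop (s + 1)).map D).prod j' j else 0)) = 0 := by
  set R : Matrix κ ι K := Matrix.single i' j' 1 with hR
  have hp : (c.sum fun l a => C a * offp y A R D l i j) = 0 := by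
    apply Polynomial.funext
    intro t
    have h1 := h t R (Sum.inl i) (Sum.inr j)
    rw [eval_zero, ← h1, Finsupp.sum, Finsupp.sum, eval_finsetSum]
    refine Finset.sum_congr rfl fun l _ => ?_
    rw [word_blocks, fromBlocks_apply₁₂, Matrix.of_apply, eval_mul, eval_C]
  have h2 := congrArg (fun p : K[X] => p.coeff s) hp
  rw [Finsupp.sum] at h2
  simp only [finsetSum_coeff, coeff_C_mul, coeff_offp, coeff_zero] at h2
  rw [Finsupp.sum]
  refine Eq.trans (Finset.sum_congr rfl fun l _ => ?_) h2
  congr 1
  by_cases hl : l[s]? = some y
  · rw [if_pos hl, if_pos hl, hR, Matrix.mul_assoc, Matrix.mul_apply]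
    rw [Finset.sum_eq_single i']
    · congr 1
      rw [Matrix.mul_apply, Finset.sum_eq_single j']
      · simp
      · intro b _ hb
        simp [Matrix.single, hb.symm]
      · simp
    · intro b _ hb
      rw [Matrix.mul_apply, Finset.sum_eq_zero, mul_zero]
      intro x _
      simp [Matrix.single, hb.symm]
    · simp
  · rw [if_neg hl, if_neg hl]

/-- there is no polynomial identity of `ι × ι` matrices which is homogeneous of degree `s` -/
def NoId (K : Type*) [Field K] (σ : Type*) (ι : Type*) [Fintype ι] [DecidableEq ι] (s : ℕ) : Prop :=
  ∀ h : List σ →₀ K, (∀ l, h l ≠ 0 → l.length = s) → VanAll ι h → h = 0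

/-- the peeling lemma -/
theorem peel [Infinite K] {κ ι : Type*} [Fintype κ] [DecidableEq κ] [Fintype ι] [DecidableEq ι]
    (c : List σ →₀ K) (s : ℕ) (hno : NoId K σ κ s) (hc : VanU κ ι c)
    (p : List σ) (hp : p.length = s + 1) : VanAll ι (pl p c) := by
  classical
  intro D j' j
  obtain ⟨u, y, rfl⟩ : ∃ u y, p = u ++ [y] := by
    have : p ≠ [] := by intro h; rw [h] at hp; simp at hp
    exact ⟨p.dropLast, p.getLast this, (List.dropLast_append_getLast this).symm⟩
  have hu : u.length = s := by simpa using hp
  set g : List σ → K := fun l => if l[s]? = some y then ((l.drop (s + 1)).map D).prod j' j else 0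
    with hg
  set h : List σ →₀ K := c.sum fun l a => Finsupp.single (l.take s) (a * g l) with hh
  have hsum : ∀ φ : List σ → K, (h.sum fun l a => a * φ l) = c.sum fun l a => a * g l * φ (l.take s) := by
    intro φ
    rw [hh, Finsupp.sum_sum_index (by simp) (by intro _ _ _; ring)]
    refine Finsupp.sum_congr fun l _ => ?_
    rw [Finsupp.sum_single_index (by simp)]
  have hlen : ∀ l, h l ≠ 0 → l.length = s := by
    intro l hl
    by_contra hne
    apply hl
    rw [hh, Finsupp.sum_apply, Finsupp.sum]
    refine Finset.sum_eq_zero fun m _ => ?_
    rw [Finsupp.single_apply]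
    split_ifs with h1
    · have h2 : ¬ (m[s]? = some y) := by
        intro h3
        apply hne
        rw [← h1, List.length_take]
        have := (List.getElem?_eq_some_iff.1 h3).1
        omega
      rw [hg]
      simp only [if_neg h2, mul_zero]
    · rfl
  have h0 : h = 0 := by
    apply hno h hlen
    intro A i i'
    rw [hsum]
    have := extract c A D y s (fun t R => hc (fun s => t • A s) (fun s => if s = y then R else 0) D)
      i i' j' j
    refine Eq.trans (Finsupp.sum_congr fun l _ => ?_) this
    rw [hg]
    simp only
    split_ifs <;> ring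
  have h1 := congrArg (fun f : List σ →₀ K => f u) h0
  simp only [Finsupp.zero_apply] at h1
  rw [hh, Finsupp.sum_apply] at h1
  rw [sum_pl]
  refine Eq.trans (Finsupp.sum_congr fun l _ => ?_) h1
  rw [Finsupp.single_apply, List.length_append, List.length_singleton, hu]
  by_cases h2 : l.take (s + 1) = u ++ [y]
  · have h3 : l.take s = u := by
      have := congrArg (List.take s) h2
      rw [List.take_take, min_eq_left (Nat.le_succ s), List.take_left' hu] at this
      exact this
    have h4 : l[s]? = some y := by
      have := congrArg (fun m : List σ => m[s]?) h2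
      rw [List.getElem?_take_of_lt (Nat.lt_succ_self s), List.getElem?_append_right hu.le, hu] at this
      simpa using this
    rw [if_pos h2, if_pos h3, hg]
    simp only [if_pos h4]
  · rw [if_neg h2, mul_zero]
    split_ifs with h3
    · have h4 : ¬ (l[s]? = some y) := by
        intro h5
        apply h2
        rw [List.take_add_one, h3, h5]
        rfl
      rw [hg]
      simp only [if_neg h4, mul_zero]
    · rfl

end Pool.Agent.R844.NC
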