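import Pool.Agent.R844.NC.Basic

/-!
The identities of degree `2 m` of `m × m` matrices are alternating; polynomials in few variables.
-/

set_option autoImplicit false

namespace Pool.Agent.R844.NC

open Matrix Polynomial

variable {K : Type*} [Field K] {σ : Type*}

/-- `h` changes the sign if one exchanges the letters after the beginning `p` and before the
end `s`. -/
def Sw (h : List σ →₀ K) (p s : List σ) : Prop :=
  ∀ a b : σ, h (p ++ a :: b :: s) + h (p ++ b :: a :: s) = 0 ∧ h (p ++ a :: a :: s) = 0

lemma quad (h : List σ →₀ K) (p s : List σ) (φ : (σ → K) → List σ → K)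
    (H : ∀ γ, (h.sum fun l a => a * φ γ l) = 0)
    (h1 : ∀ γ u v, φ γ (p ++ u :: v :: s) = γ u * γ v)
    (h2 : ∀ γ l, h l ≠ 0 → φ γ l ≠ 0 → ∃ u v, l = p ++ u :: v :: s) : Sw h p s := by
  classical
  have inj : ∀ u v u' v' : σ, p ++ u :: v :: s = p ++ u' :: v' :: s ↔ u = u' ∧ v = v' := by
    intro u v u' v'
    simp
  have hd : ∀ a, h (p ++ a :: a :: s) = 0 := by
    intro a
    have h3 := H (fun z => if z = a then 1 else 0)
    rw [sum_eq_of {p ++ a :: a :: s}] at h3
    · rw [Finset.sum_singleton, h1] at h3
      simpa using h3
    · intro l hl hl2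
      by_contra hne
      obtain ⟨u, v, rfl⟩ := h2 _ l hl hne
      rw [h1] at hne
      rw [Finset.mem_singleton, inj] at hl2
      apply hl2
      by_contra hcon
      apply hne
      by_cases h4 : u = a
      · have h5 : v ≠ a := fun h5 => hcon ⟨h4, h5⟩
        simp [h5]
      · simp [h4]
  intro a b
  refine ⟨?_, hd a⟩
  by_cases hab : a = b
  · subst hab
    rw [hd, add_zero]
  · have h3 := H (fun z => if z = a then 1 else if z = b then 1 else 0)
    rw [sum_eq_of {p ++ a :: a :: s, p ++ a :: b :: s, p ++ b :: a :: s, p ++ b :: b :: s}] at h3
    · rw [Finset.sum_insert, Finset.sum_insert, Finset.sum_insert, Finset.sum_singleton, hd, hd,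
        h1, h1, h1, h1] at h3
      · have hba : b ≠ a := fun h => hab h.symm
        simpa [hab, hba] using h3
      · rw [Finset.mem_singleton, inj]
        intro h
        exact hab h.2
      · rw [Finset.mem_insert, Finset.mem_singleton, inj, inj]
        rintro (h | h)
        · exact hab h.1
        · exact hab h.1
      · rw [Finset.mem_insert, Finset.mem_insert, Finset.mem_singleton, inj, inj, inj]
        rintro (h | h | h)
        · exact hab h.2
        · exact hab h.1
        · exact hab h.1
    · intro l hl hl2
      by_contra hne
      obtain ⟨u, v, rfl⟩ := h2 _ l hl hne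
      rw [h1] at hne
      simp only [Finset.mem_insert, Finset.mem_singleton, inj] at hl2
      apply hl2
      have hu : u = a ∨ u = b := by
        by_contra hcon
        push Not at hcon
        apply hne
        simp [hcon.1, hcon.2]
      have hv : v = a ∨ v = b := by
        by_contra hcon
        push Not at hcon
        apply hne
        simp [hcon.1, hcon.2]
      tauto

lemma Sw.rv {h : List σ →₀ K} {p s : List σ} (H : Sw h p s) :
    Sw (NC.rv h) s.reverse p.reverse := by
  intro a b
  have h1 := H b a
  rw [rv_apply, rv_apply, rv_apply]
  simp only [List.reverse_append, List.reverse_cons, List.reverse_reverse, List.append_assoc,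
    List.cons_append, List.nil_append]
  refine ⟨h1.1, (H a b).2⟩

lemma Sw.pl {h : List σ →₀ K} {q p s : List σ} (H : Sw (NC.pl q h) p s) :
    Sw h (q ++ p) s := by
  intro a b
  have h1 := H a b
  rw [pl_apply, pl_apply, pl_apply] at h1
  simpa only [List.append_assoc] using h1

lemma peel_one [Infinite K] {m : ℕ} {h : List σ →₀ K} (hv : VanAll (Fin (m + 1)) h) (q : List σ)
    (hq : q.length = 2) : VanAll (Fin m) (pl q h) := by
  have h4 : VanU (Fin 1) (Fin m) h := by
    have h5 : VanAll (Fin (1 + m)) h := by rw [add_comm]; exact hv
    exact h5.fin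
  exact peel h 1 noId_one h4 q hq

/-- identities of degree `2 m` of `m × m` matrices -/
theorem sw [Infinite K] {m : ℕ} (h : List σ →₀ K) (hh : ∀ l, h l ≠ 0 → l.length = 2 * m)
    (hv : VanAll (Fin m) h) (p s : List σ) (hps : p.length + 2 + s.length = 2 * m) :
    Sw h p s := by
  classical
  induction m generalizing h p s with
  | zero => omega
  | succ m ih =>
    have key : ∀ (h : List σ →₀ K), (∀ l, h l ≠ 0 → l.length = 2 * (m + 1)) →
        VanAll (Fin (m + 1)) h → ∀ p s : List σ, p.length + 2 + s.length = 2 * (m + 1) →
        2 ≤ p.length → Sw h p s := by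
      intro h hh hv p s hps hp
      have h1 := peel_one hv (p.take 2) (by rw [List.length_take]; omega)
      have h2 := ih (pl (p.take 2) h) (fun l hl => by
        rw [pl_apply] at hl
        have h3 := hh _ hl
        rw [List.length_append, List.length_take] at h3
        omega) h1 (p.drop 2) s (by rw [List.length_drop]; omega)
      have h3 := h2.pl
      rwa [List.take_append_drop] at h3
    rcases le_or_gt 2 p.length with hp | hp
    · exact key h hh hv p s hps hp
    rcases le_or_gt 2 s.length with hs | hs
    · have h1 := key (rv h) (fun l hl => by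
        rw [rv_apply] at hl
        have := hh _ hl
        rwa [List.length_reverse] at this) hv.rv s.reverse p.reverse
        (by rw [List.length_reverse, List.length_reverse]; omega)
        (by rw [List.length_reverse]; exact hs)
      have h2 := h1.rv
      rw [List.reverse_reverse, List.reverse_reverse] at h2
      intro a b
      have h3 := h2 a b
      simpa only [rv_apply, List.reverse_reverse] using h3
    rcases Nat.eq_zero_or_pos p.length with hp0 | hp0
    · -- `m = 0`
      have hs0 : s.length = 0 := by omega
      have hm : m = 0 := by omega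
      subst hm
      rw [List.length_eq_zero_iff] at hp0 hs0
      subst hp0 hs0
      apply quad h [] [] (fun γ l => (l.map fun z => Matrix.of fun _ _ : Fin 1 => γ z).prod 0 0)
      · intro γ
        exact hv _ 0 0
      · intro γ u v
        simp [Matrix.mul_apply]
      · intro γ l hl _
        have := hh l hl
        obtain ⟨u, v, rfl⟩ := List.length_eq_two.1 (by simpa using this)
        exact ⟨u, v, rfl⟩
    · have hp1 : p.length = 1 := by omega
      have hs1 : s.length = 1 := by omega
      have hm : m = 1 := by omega
      subst hm
      obtain ⟨x, rfl⟩ := List.length_eq_one_iff.1 hp1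
      obtain ⟨y, rfl⟩ := List.length_eq_one_iff.1 hs1
      set M : (σ → K) → σ → Matrix (Fin 2) (Fin 2) K := fun γ z =>
        !![0, if z = x then 1 else 0; if z = y then 1 else 0, γ z] with hM
      have hword : ∀ γ a b c d, (([a, b, c, d].map (M γ)).prod 0 0 : K) =
          (if a = x then 1 else 0) * (γ b * γ c) * (if d = y then 1 else 0) +
          (if a = x then 1 else 0) * (if b = y then 1 else 0) * (if c = x then 1 else 0) *
            (if d = y then 1 else 0) := by
        intro γ a b c d
        simp only [List.map_cons, List.map_nil, List.prod_cons, List.prod_nil, hM,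
          Matrix.mul_apply, Fin.sum_univ_two, mul_one, Matrix.of_apply, Matrix.cons_val',
          Matrix.cons_val_zero, Matrix.cons_val_one, Matrix.cons_val_fin_one, zero_mul, mul_zero,
          zero_add]
        ring
      apply quad h [x] [y] (fun γ l => (l.map (M γ)).prod 0 0 - (l.map (M 0)).prod 0 0)
      · intro γ
        have h1 := hv (M γ) 0 0
        have h2 := hv (M 0) 0 0
        rw [Finsupp.sum] at h1 h2 ⊢
        rw [← sub_eq_zero.2 (h1.trans h2.symm), ← Finset.sum_sub_distrib]
        refine Finset.sum_congr rfl fun l _ => ?_
        ring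
      · intro γ u v
        show ([x, u, v, y].map (M γ)).prod 0 0 - ([x, u, v, y].map (M 0)).prod 0 0 = _
        rw [hword, hword]
        simp
      · intro γ l hl hl2
        have h3 := hh l hl
        obtain ⟨a, b, c, d, rfl⟩ : ∃ a b c d, l = [a, b, c, d] := by
          match l, h3 with
          | [a, b, c, d], _ => exact ⟨a, b, c, d, rfl⟩
        rw [hword, hword] at hl2
        refine ⟨b, c, ?_⟩
        have h4 : a = x := by
          by_contra h4
          apply hl2
          simp [h4]
        have h5 : d = y := by
          by_contra h5
          apply hl2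
          simp [h5]
        rw [h4, h5]
        rfl

/-- a word in which two letters are equal -/
lemma zero_of_sw (h : List σ →₀ K) (N : ℕ) (H : ∀ p s : List σ, p.length + 2 + s.length = N →
    Sw h p s) (q : List σ) : ∀ (p s : List σ) (a : σ), p.length + 2 + q.length + s.length = N →
    h (p ++ a :: q ++ a :: s) = 0 := by
  induction q with
  | nil =>
    intro p s a hN
    have := (H p s (by simpa using hN) a a).2
    simpa using this
  | cons b q ih =>
    intro p s a hN
    rw [List.length_cons] at hN
    have h1 := (H p (q ++ a :: s) (by rw [List.length_append, List.length_cons]; omega) a b).1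
    have h2 := ih (p ++ [b]) s a (by rw [List.length_append, List.length_singleton]; omega)
    have h3 : p ++ b :: a :: (q ++ a :: s) = p ++ [b] ++ a :: q ++ a :: s := by simp
    rw [h3, h2, add_zero] at h1
    simpa using h1

lemma nodup_of_sw (h : List σ →₀ K) (N : ℕ) (H : ∀ p s : List σ, p.length + 2 + s.length = N →
    Sw h p s) (l : List σ) (hN : l.length = N) (hl : h l ≠ 0) : l.Nodup := by
  by_contra hcon
  apply hl
  obtain ⟨x, hx⟩ : ∃ x, List.Sublist [x, x] l := by
    by_contra h2
    push Not at h2
    exact hcon (List.nodup_iff_sublist.2 h2)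
  obtain ⟨p, t, rfl, ht⟩ : ∃ p t, l = p ++ x :: t ∧ List.Sublist [x] t := by
    obtain ⟨r₁, r₂, rfl, h1, h2⟩ := List.cons_sublist_iff.1 hx
    obtain ⟨s, t, rfl⟩ := List.append_of_mem h1
    refine ⟨s, t ++ r₂, by simp, h2.trans (List.sublist_append_right _ _)⟩
  have hxt : x ∈ t := by simpa using ht
  obtain ⟨q, s, rfl⟩ := List.append_of_mem hxt
  have := zero_of_sw h N H q p s x (by
    rw [← hN]
    simp only [List.length_append, List.length_cons]
    omega)
  simpa using this

/-- there are no identities of degree `2 m` of `m × m` matrices in less than `2 m` variables -/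
theorem noId_few [Infinite K] [Fintype σ] {m : ℕ} (hm : Fintype.card σ < 2 * m) :
    NoId K σ (Fin m) (2 * m) := by
  intro h hh hv
  ext l
  rw [Finsupp.zero_apply]
  by_contra hne
  have h1 := nodup_of_sw h (2 * m) (sw h hh hv) l (hh l hne) hne
  have h2 := h1.length_le_card
  have h3 := hh l hne
  omega

/-- least degree of the identities of matrices in few variables -/
theorem degree_few [Infinite K] [Fintype σ] {k : ℕ} (hk : Fintype.card σ < 2 * k) {m : ℕ}
    {c : List σ →₀ K} (h : VanAll (Fin m) c) {l : List σ} (hl : c l ≠ 0) :
    2 * m + m / k ≤ l.length := by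
  induction m using Nat.strong_induction_on generalizing c l with
  | _ m ih =>
    have h0 := degree h hl
    rcases lt_or_ge m k with hmk | hmk
    · rw [Nat.div_eq_of_lt hmk]
      exact h0
    · obtain ⟨e, rfl⟩ := Nat.exists_eq_add_of_le hmk
      have h1 := h.fin
      have hk0 : 0 < k := by omega
      have h2 : 2 * k + 1 ≤ l.length := by
        by_contra hcon
        have h3 : e = 0 := by omega
        subst h3
        exact hl ((noId_few hk).coeff h (by omega))
      have h3 := peel c (2 * k) (noId_few hk) h1 (l.take (2 * k + 1))
        (by rw [List.length_take]; omega)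
      have h4 : pl (l.take (2 * k + 1)) c (l.drop (2 * k + 1)) ≠ 0 := by
        rw [pl_apply, List.take_append_drop]
        exact hl
      have h5 := ih e (by omega) h3 h4
      rw [List.length_drop] at h5
      rw [Nat.add_div_left e hk0]
      omega

end Pool.Agent.R844.NC
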